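import Mathlib

/-!
# An infinite set `I` carries at least `2 ^ 2 ^ |I|` ultrafilters
-/

set_option autoImplicit false

open Filter Topology

namespace Pool.Agent.R634.CH

universe u

variable {I : Type u}

open Classical in
/-- the trace of `s` on a finite set -/
noncomputable def tr (E : Finset I) (s : Set I) : Finset I := E.filter (· ∈ s)

open Classical in
lemma exists_sep (F : Finset (Set I)) :
    ∃ E : Finset I, ∀ s ∈ F, ∀ t ∈ F, tr E s = tr E t → s = t := by
  have h1 : ∀ p : Set I × Set I, ∃ E : Finset I, tr E p.1 = tr E p.2 → p.1 = p.2 := by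
    rintro ⟨s, t⟩
    by_cases hst : s = t
    · exact ⟨∅, fun _ => hst⟩
    · obtain ⟨k, hk⟩ : ∃ k, ¬ (k ∈ s ↔ k ∈ t) := by
        by_contra hc
        push Not at hc
        exact hst (Set.ext hc)
      refine ⟨{k}, fun h => absurd ?_ hk⟩
      have h2 : k ∈ tr {k} s ↔ k ∈ tr {k} t := by
        show k ∈ tr {k} s ↔ k ∈ tr {k} t
        rw [show tr {k} s = tr {k} t from h]
      simpa [tr] using h2
  choose e he using h1
  refine ⟨(F ×ˢ F).biUnion e, fun s hs t ht h => he (s, t) ?_⟩
  ext k
  simp only [tr, Finset.mem_filter]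
  constructor
  · rintro ⟨hk, hks⟩
    refine ⟨hk, ?_⟩
    have h2 : k ∈ tr ((F ×ˢ F).biUnion e) s := by
      rw [tr, Finset.mem_filter]
      exact ⟨Finset.mem_biUnion.2 ⟨(s, t), Finset.mem_product.2 ⟨hs, ht⟩, hk⟩, hks⟩
    rw [h, tr, Finset.mem_filter] at h2
    exact h2.2
  · rintro ⟨hk, hkt⟩
    refine ⟨hk, ?_⟩
    have h2 : k ∈ tr ((F ×ˢ F).biUnion e) t := by
      rw [tr, Finset.mem_filter]
      exact ⟨Finset.mem_biUnion.2 ⟨(s, t), Finset.mem_product.2 ⟨hs, ht⟩, hk⟩, hkt⟩
    rw [← h, tr, Finset.mem_filter] at h2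
    exact h2.2

/-- the index set -/
abbrev J (I : Type u) : Type u := Finset I × Finset (Finset I)

lemma exists_enc (I : Type u) [Infinite I] : ∃ enc : J I → I, Function.Injective enc := by
  have h1 : Cardinal.mk (J I) = Cardinal.mk I := by
    have h2 : Cardinal.mk (Finset (Finset I)) = Cardinal.mk I := by
      rw [Cardinal.mk_finset_of_infinite, Cardinal.mk_finset_of_infinite]
    rw [Cardinal.mk_prod, Cardinal.lift_id, Cardinal.lift_id, h2, Cardinal.mk_finset_of_infinite]
    exact Cardinal.mul_eq_self (Cardinal.aleph0_le_mk I)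
  obtain ⟨e⟩ := Cardinal.eq.1 h1
  exact ⟨e, e.injective⟩

/-- **Pospíšil's theorem** -/
theorem exists_ultra (I : Type u) [Infinite I] :
    ∃ U : Set (Set I) → Ultrafilter I, Function.Injective U := by
  classical
  obtain ⟨enc, henc⟩ := exists_enc I
  let indep : Set I → Set I := fun s => {k | ∃ j : J I, tr j.1 s ∈ j.2 ∧ enc j = k}
  have hindep : ∀ (s : Set I) (j : J I), enc j ∈ indep s ↔ tr j.1 s ∈ j.2 := by
    intro s j
    constructor
    · rintro ⟨j', h, hj⟩
      rw [henc hj] at h
      exact h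
    · intro h
      exact ⟨j, h, rfl⟩
  let jE : Set (Set I) → Finset (Set I) → J I := fun E F =>
    ((exists_sep F).choose, (F.filter (· ∈ E)).image (tr (exists_sep F).choose))
  have hjE : ∀ (E : Set (Set I)) (F : Finset (Set I)) (s : Set I), s ∈ F →
      (enc (jE E F) ∈ indep s ↔ s ∈ E) := by
    intro E F s hs
    rw [hindep]
    simp only [jE, Finset.mem_image, Finset.mem_filter]
    constructor
    · rintro ⟨t, ⟨ht, htE⟩, h⟩
      have := (exists_sep F).choose_spec t ht s hs h
      rwa [← this]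
    · intro h
      exact ⟨s, ⟨hs, h⟩, rfl⟩
  let U : Set (Set I) → Ultrafilter I := fun E =>
    Ultrafilter.of (Filter.map (fun F => enc (jE E F)) atTop)
  have hU : ∀ (E : Set (Set I)) (s : Set I), indep s ∈ U E ↔ s ∈ E := by
    intro E s
    have h1 : ∀ (Z : Set I), (∀ᶠ F : Finset (Set I) in atTop, enc (jE E F) ∈ Z) → Z ∈ U E := by
      intro Z hZ
      have h2 : ((U E : Ultrafilter I) : Filter I) ≤
          Filter.map (fun F => enc (jE E F)) atTop := Ultrafilter.of_le _
      exact h2 hZ
    have h3 : ∀ᶠ F : Finset (Set I) in atTop, (enc (jE E F) ∈ indep s ↔ s ∈ E) := by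
      filter_upwards [eventually_ge_atTop {s}] with F hF
      exact hjE E F s (hF (Finset.mem_singleton_self s))
    by_cases hs : s ∈ E
    · refine ⟨fun _ => hs, fun _ => h1 _ ?_⟩
      filter_upwards [h3] with F hF
      exact hF.2 hs
    · refine ⟨fun h => ?_, fun h => absurd h hs⟩
      have h4 : (indep s)ᶜ ∈ U E := by
        refine h1 _ ?_
        filter_upwards [h3] with F hF hcon
        exact hs (hF.1 hcon)
      exact absurd h (Ultrafilter.compl_mem_iff_notMem.1 h4)
  refine ⟨U, fun E E' h => ?_⟩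
  ext s
  rw [← hU E s, ← hU E' s, h]

end Pool.Agent.R634.CH
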