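import Pool.Agent.R634.CH.Maps
import Pool.Agent.R634.CH.Ind
import Pool.Agent.R634.SH.Red

/-!
# Under CH, `C(βℕ ∖ ℕ)` has the SHAI property
-/

set_option autoImplicit false

open Set Filter Topology
open scoped BoundedContinuousFunction Cardinal

namespace Pool.Agent.R634.CH

open Pool.Agent.H148R3 Pool.Agent.R634.SH

universe u w

variable {𝕜 : Type w} [RCLike 𝕜]
variable {Y : Type*} [NormedAddCommGroup Y] [NormedSpace 𝕜 Y] [CompleteSpace Y]

/-- The kernel contains the operators that factor through `ℓ_∞`. -/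
theorem kills [Nontrivial Y] (ψ : (C(Rem, 𝕜) →L[𝕜] C(Rem, 𝕜)) →ₐ[𝕜] (Y →L[𝕜] Y))
    (hψ : Function.Surjective ψ) (T : C(Rem, 𝕜) →L[𝕜] C(Rem, 𝕜)) (hT0 : T ≠ 0) (hT : ψ T = 0)
    (A : (ℕ →ᵇ 𝕜) →L[𝕜] C(Rem, 𝕜)) (B : C(Rem, 𝕜) →L[𝕜] (ℕ →ᵇ 𝕜)) : ψ (A.comp B) = 0 := by
  classical
  obtain ⟨ι, ρ, hρι⟩ := exists_compl 𝕜
  have h1 : ψ (ι.comp ρ) = 0 := by
    by_contra hne
    obtain ⟨ψ0, hψ0, hker⟩ := corner ψ hψ ρ ι hρι
    have : CompleteSpace (fixSub (ψ (ι.comp ρ))) :=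
      (isClosed_fixSub (ψ (ι.comp ρ))).completeSpace_coe
    have : Nontrivial (fixSub (ψ (ι.comp ρ))) := by
      obtain ⟨y, hy⟩ : ∃ y, ψ (ι.comp ρ) y ≠ 0 := by
        by_contra hcon
        push Not at hcon
        apply hne
        ext y
        exact hcon y
      refine ⟨⟨ψ (ι.comp ρ) y, ?_⟩, 0, fun h => hy (Subtype.ext_iff.1 h)⟩
      rw [mem_fixSub]
      have h3 : ψ (ι.comp ρ) (ψ (ι.comp ρ) y) = (ψ (ι.comp ρ) * ψ (ι.comp ρ)) y := rfl
      have h4 : (ι.comp ρ) * (ι.comp ρ) = ι.comp ρ := by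
        ext x
        change ι (ρ (ι (ρ x))) _ = ι (ρ x) _
        rw [hρι]
      rw [h3, ← map_mul, h4]
    have hinj := shai_linf ψ0 hψ0
    obtain ⟨x, t, hxt⟩ : ∃ (x : C(Rem, 𝕜)) (t : Rem), T x t ≠ 0 := by
      by_contra hcon
      push Not at hcon
      apply hT0
      ext x t
      exact hcon x t
    let δ : (ℕ →ᵇ 𝕜) →L[𝕜] 𝕜 := ev 0
    let c : ℕ →ᵇ 𝕜 := ind {0}
    let et : C(Rem, 𝕜) →L[𝕜] 𝕜 := LinearMap.mkContinuous
      { toFun := fun x => x t
        map_add' := fun _ _ => rfl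
        map_smul' := fun _ _ => rfl } 1 (fun x => by
      rw [one_mul]
      exact x.norm_coe_le_norm t)
    have h2 : (ι.comp (δ.smulRight c)).comp ρ =
        (et.smulRight ((T x t)⁻¹ • ι c)) * T * ((δ.comp ρ).smulRight x) := by
      ext a s
      change ι (δ (ρ a) • c) s = (T (δ (ρ a) • x) t • ((T x t)⁻¹ • ι c)) s
      rw [map_smul, map_smul]
      change δ (ρ a) * ι c s = (δ (ρ a) * T x t) * ((T x t)⁻¹ * ι c s)
      field_simp
    have h3 : ψ0 (δ.smulRight c) = 0 := by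
      refine hker _ ?_
      rw [h2, map_mul, map_mul, hT, mul_zero, zero_mul]
    have h4 : δ.smulRight c = 0 := hinj (by rw [h3, map_zero])
    have h5 : (δ.smulRight c) c 0 = 1 := by
      change c 0 * c 0 = 1
      have h6 : c 0 = 1 := ind_of (mem_singleton 0)
      rw [h6, one_mul]
    rw [h4] at h5
    exact zero_ne_one h5
  have h2 : A.comp B = (A.comp ρ) * (ι.comp ρ) * (ι.comp B) := by
    ext x s
    change A (B x) s = A (ρ (ι (ρ (ι (B x))))) s
    rw [hρι, hρι]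
  rw [h2, map_mul, map_mul, h1, mul_zero, zero_mul]

omit [CompleteSpace Y] in
/-- limits of bounded families of functionals along an ultrafilter -/
theorem exists_lim {I : Type u} (V : Ultrafilter I) (φ : I → Y →L[𝕜] 𝕜) (C : ℝ)
    (hφ : ∀ i, ‖φ i‖ ≤ C) : ∃ G : Y →L[𝕜] 𝕜, ∀ y, Tendsto (fun i => φ i y) V (𝓝 (G y)) := by
  have hb : ∀ (y : Y) i, ‖φ i y‖ ≤ C * ‖y‖ := fun y i =>
    ((φ i).le_opNorm y).trans (mul_le_mul_of_nonneg_right (hφ i) (norm_nonneg _))
  have h1 : ∀ y : Y, ∃ z : 𝕜, ‖z‖ ≤ C * ‖y‖ ∧ Tendsto (fun i => φ i y) V (𝓝 z) := by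
    intro y
    obtain ⟨z, hz1, hz2⟩ := (isCompact_closedBall (0 : 𝕜) (C * ‖y‖)).ultrafilter_le_nhds
      (V.map fun i => φ i y) (by
        rw [le_principal_iff]
        show ∀ᶠ i in (V : Filter I), φ i y ∈ Metric.closedBall (0 : 𝕜) (C * ‖y‖)
        exact Eventually.of_forall fun i => mem_closedBall_zero_iff.2 (hb y i))
    exact ⟨z, mem_closedBall_zero_iff.1 hz1, hz2⟩
  choose G hG1 hG2 using h1
  exact ⟨LinearMap.mkContinuous
    { toFun := G
      map_add' := fun x y => by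
        refine tendsto_nhds_unique (hG2 (x + y)) (((hG2 x).add (hG2 y)).congr fun i => ?_)
        rw [map_add]
      map_smul' := fun r x => by
        refine tendsto_nhds_unique (hG2 (r • x)) (((hG2 x).const_smul r).congr fun i => ?_)
        rw [map_smul] } C hG1, hG2⟩

/-- a function on the remainder is coded by a sequence -/
theorem exists_code (𝕜 : Type w) [RCLike 𝕜] :
    ∃ code : C(Rem, 𝕜) → (ℕ → ℝ × ℝ), Function.Injective code := by
  have h1 : ∀ x : C(Rem, 𝕜), ∃ y : C(Ultrafilter ℕ, 𝕜), ∀ u : Rem, y u.1 = x u := by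
    intro x
    obtain ⟨y, hy⟩ := ContinuousMap.exists_restrict_eq (Y := 𝕜) isClosed_rem
      (show C({u : Ultrafilter ℕ | ∀ n, u ≠ pure n}, 𝕜) from x)
    refine ⟨y, fun u => ?_⟩
    rw [← hy]
    rfl
  choose y hy using h1
  refine ⟨fun x n => (RCLike.re (y x (pure n)), RCLike.im (y x (pure n))), fun x x' h => ?_⟩
  have h2 : ∀ n, y x (pure n) = y x' (pure n) := by
    intro n
    have h3 := congrFun h n
    exact RCLike.ext (congrArg Prod.fst h3) (congrArg Prod.snd h3)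
  have h4 : (y x : Ultrafilter ℕ → 𝕜) = y x' :=
    denseRange_pure.equalizer (y x).continuous (y x').continuous (funext h2)
  ext u
  rw [← hy, ← hy, h4]

theorem count (𝕜 : Type w) [RCLike 𝕜] (I : Type) (e : I ≃ Set ℕ)
    (Φ : Set (Set I) → (C(Rem, 𝕜) →L[𝕜] C(Rem, 𝕜))) : ¬ Function.Injective Φ := by
  intro hΦ
  obtain ⟨code, hcode⟩ := exists_code 𝕜
  have hdec : ∀ x, Function.invFun code (code x) = x := Function.leftInverse_invFun hcode
  let Ψ : Set (Set I) → ((ℕ → ℝ × ℝ) → (ℕ → ℝ × ℝ)) := fun E c =>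
    code (Φ E (Function.invFun code c))
  have hΨ : Function.Injective Ψ := by
    intro E E' h
    apply hΦ
    ext x : 1
    apply hcode
    have h1 := congrFun h (code x)
    simp only [Ψ] at h1
    rwa [hdec] at h1
  have h1 := Cardinal.mk_le_of_injective hΨ
  have h2 : #(ℕ → ℝ × ℝ) = 𝔠 := by
    simp [Cardinal.mk_real]
  have h3 : #I = 𝔠 := by
    rw [Cardinal.mk_congr e]
    simp
  have h4 : #((ℕ → ℝ × ℝ) → (ℕ → ℝ × ℝ)) = 2 ^ 𝔠 := by
    rw [← Cardinal.power_def, h2]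
    exact Cardinal.power_self_eq Cardinal.aleph0_le_continuum
  rw [h4, Cardinal.mk_set, Cardinal.mk_set, h3] at h1
  exact absurd (Cardinal.cantor (2 ^ 𝔠)) (not_lt.2 h1)

/-- **CH implies the SHAI property of `C(βℕ ∖ ℕ)`.** -/
theorem shai_rem (hCH : (𝔠 : Cardinal.{0}) = Cardinal.aleph 1) [Nontrivial Y]
    (ψ : (C(Rem, 𝕜) →L[𝕜] C(Rem, 𝕜)) →ₐ[𝕜] (Y →L[𝕜] Y)) (hψ : Function.Surjective ψ) :
    Function.Injective ψ := by
  classical
  rw [injective_iff_map_eq_zero]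
  intro T hT
  by_contra hT0
  obtain ⟨C, hC0, hC⟩ := auto_cont (A := C(Rem, 𝕜) →L[𝕜] C(Rem, 𝕜)) ψ hψ
  let I : Type := (𝔠 : Cardinal.{0}).ord.ToType
  have hcard : #I = 𝔠 := Cardinal.mk_ord_toType 𝔠
  have hI : ∀ i : I, (Iio i).Countable := by
    intro i
    rw [← Cardinal.le_aleph0_iff_set_countable, ← Order.lt_succ_iff, Cardinal.succ_aleph0, ← hCH]
    exact Cardinal.mk_Iio_toType_ord_lt i
  obtain ⟨e⟩ : Nonempty (I ≃ Set ℕ) := by
    rw [← Cardinal.eq, hcard]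
    simp
  have : Infinite I := by
    rw [Cardinal.infinite_iff, hcard]
    exact Cardinal.aleph0_le_continuum
  obtain ⟨R, hR, hTS⟩ := exists_TS 𝕜 I hI e
  choose S hS using hTS
  obtain ⟨y0, f0, hy0, hf0⟩ := exists_pair 𝕜 Y
  obtain ⟨U, hU⟩ := exists_ultra I
  have hφ : ∀ i, ‖f0.comp (ψ (R i))‖ ≤ ‖f0‖ * C := by
    intro i
    refine (ContinuousLinearMap.opNorm_comp_le _ _).trans
      (mul_le_mul_of_nonneg_left ?_ (norm_nonneg _))
    calc ‖ψ (R i)‖ ≤ C * ‖R i‖ := hC _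
      _ ≤ C * 1 := mul_le_mul_of_nonneg_left (hR i) hC0
      _ = C := mul_one C
  choose G hG using fun V : Ultrafilter I => exists_lim V (fun i => f0.comp (ψ (R i))) _ hφ
  have hval : ∀ (Z : Set I) i, f0 (ψ (R i) (ψ (S Z) y0)) = if i ∈ Z then 1 else 0 := by
    intro Z i
    have h1 : ψ (R i) (ψ (S Z) y0) = ψ (R i * S Z) y0 := by
      rw [map_mul]
      rfl
    rw [h1]
    by_cases hi : i ∈ Z
    · obtain ⟨A, B, hAB⟩ := (hS Z i).2 hi
      rw [hAB, map_sub, map_one, kills ψ hψ T hT0 hT, sub_zero, if_pos hi]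
      exact hf0
    · rw [(hS Z i).1 hi, map_zero, if_neg hi]
      exact map_zero f0
  have hGval : ∀ (V : Ultrafilter I) (Z : Set I), G V (ψ (S Z) y0) = if Z ∈ V then 1 else 0 := by
    intro V Z
    refine tendsto_nhds_unique (hG V (ψ (S Z) y0)) ?_
    by_cases hZ : Z ∈ V
    · rw [if_pos hZ]
      refine tendsto_const_nhds.congr' ?_
      filter_upwards [hZ] with i hi
      exact ((hval Z i).trans (if_pos hi)).symm
    · rw [if_neg hZ]
      refine tendsto_const_nhds.congr' ?_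
      filter_upwards [Ultrafilter.compl_mem_iff_notMem.2 hZ] with i hi
      exact ((hval Z i).trans (if_neg hi)).symm
  choose Φ hΦ using fun E : Set (Set I) => hψ ((G (U E)).smulRight y0)
  refine count 𝕜 I e Φ ?_
  intro E E' h
  apply hU
  have h1 : (G (U E)).smulRight y0 = (G (U E')).smulRight y0 := by rw [← hΦ, ← hΦ, h]
  apply Ultrafilter.ext
  intro Z
  have h2 : (if Z ∈ U E then (1 : 𝕜) else 0) = if Z ∈ U E' then (1 : 𝕜) else 0 := by
    rw [← hGval, ← hGval]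
    have h3 : G (U E) (ψ (S Z) y0) • y0 = G (U E') (ψ (S Z) y0) • y0 :=
      congrArg (fun L : Y →L[𝕜] Y => L (ψ (S Z) y0)) h1
    have h4 := congrArg f0 h3
    rw [map_smul, map_smul, hf0, smul_eq_mul, smul_eq_mul, mul_one, mul_one] at h4
    exact h4
  by_cases h3 : Z ∈ U E
  · by_cases h4 : Z ∈ U E'
    · exact ⟨fun _ => h4, fun _ => h3⟩
    · rw [if_pos h3, if_neg h4] at h2
      exact absurd h2 one_ne_zero
  · by_cases h4 : Z ∈ U E'
    · rw [if_neg h3, if_pos h4] at h2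
      exact absurd h2.symm one_ne_zero
    · exact ⟨fun h => absurd h h3, fun h => absurd h h4⟩

end Pool.Agent.R634.CH
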