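import Mathlib

/-!
# Sequences of nonprincipal ultrafilters that imitate the points of `ℕ` on countably many sets
-/

set_option autoImplicit false

open Set Filter

namespace Pool.Agent.R634.CH

theorem exists_nonprincipal {s : Set ℕ} (hs : s.Infinite) :
    ∃ u : Ultrafilter ℕ, (∀ n, u ≠ pure n) ∧ s ∈ u := by
  have h1 : (cofinite ⊓ 𝓟 s).NeBot := cofinite_inf_principal_neBot_iff.2 hs
  refine ⟨Ultrafilter.of (cofinite ⊓ 𝓟 s), fun n hn => ?_, ?_⟩
  · have h2 : ({n}ᶜ : Set ℕ) ∈ Ultrafilter.of (cofinite ⊓ 𝓟 s) := by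
      have h3 : ({n}ᶜ : Set ℕ) ∈ cofinite ⊓ 𝓟 s :=
        mem_inf_of_left (Set.finite_singleton n).compl_mem_cofinite
      exact Ultrafilter.of_le _ h3
    rw [hn] at h2
    exact h2 rfl
  · have h3 : s ∈ cofinite ⊓ 𝓟 s := mem_inf_of_right (mem_principal_self s)
    exact Ultrafilter.of_le _ h3

theorem exists_near (s : Set (Set ℕ)) (hs : s.Countable) :
    ∃ p : ℕ → Ultrafilter ℕ, (∀ j n, p j ≠ pure n) ∧ ∀ a ∈ s, ∀ᶠ j in cofinite, (a ∈ p j ↔ j ∈ a) := by
  classical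
  obtain ⟨a, ha⟩ : ∃ a : ℕ → Set ℕ, s ⊆ range a := by
    rcases s.eq_empty_or_nonempty with rfl | h0
    · exact ⟨fun _ => ∅, by simp⟩
    · obtain ⟨a, ha⟩ := hs.exists_eq_range h0
      exact ⟨a, ha.le⟩
  let atom : ℕ → ℕ → Set ℕ := fun j m => {i | ∀ n < m, (i ∈ a n ↔ j ∈ a n)}
  have hmono : ∀ j m m', m ≤ m' → atom j m' ⊆ atom j m := fun j m m' h i hi n hn =>
    hi n (hn.trans_le h)
  let M : ℕ → ℕ := fun j => Nat.findGreatest (fun m => (atom j m).Infinite) j
  have hM : ∀ j, (atom j (M j)).Infinite := fun j =>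
    Nat.findGreatest_spec (P := fun m => (atom j m).Infinite) (Nat.zero_le _) (by
      have h1 : atom j 0 = univ := by
        ext i
        simp [atom]
      rw [h1]
      exact infinite_univ)
  choose p hp1 hp2 using fun j => exists_nonprincipal (hM j)
  refine ⟨p, hp1, ?_⟩
  intro x hx
  obtain ⟨n, rfl⟩ := ha hx
  have hfin : {j | (atom j (n + 1)).Finite}.Finite := by
    let pat : ℕ → Set (Fin (n + 1)) := fun j => {k | j ∈ a k}
    have h1 : {j | (atom j (n + 1)).Finite} ⊆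
        ⋃ t : Set (Fin (n + 1)), ({j | (atom j (n + 1)).Finite} ∩ pat ⁻¹' {t}) := by
      intro j hj
      exact mem_iUnion.2 ⟨pat j, hj, rfl⟩
    refine (Set.finite_iUnion fun t => ?_).subset h1
    rcases ({j | (atom j (n + 1)).Finite} ∩ pat ⁻¹' {t}).eq_empty_or_nonempty with h0 | ⟨j, hj1, hj2⟩
    · rw [h0]
      exact finite_empty
    · refine (show (atom j (n + 1)).Finite from hj1).subset ?_
      rintro i ⟨-, hi2⟩ k hk
      have h3 : pat i = pat j := by
        rw [show pat i = t from hi2, show pat j = t from hj2]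
      have h4 : (⟨k, hk⟩ : Fin (n + 1)) ∈ pat i ↔ (⟨k, hk⟩ : Fin (n + 1)) ∈ pat j := by rw [h3]
      exact h4
  have h2 : ∀ᶠ j in cofinite, ¬ (atom j (n + 1)).Finite := hfin.compl_mem_cofinite
  have h3 : ∀ᶠ j : ℕ in cofinite, n + 1 ≤ j := by
    rw [Nat.cofinite_eq_atTop]
    exact eventually_ge_atTop _
  filter_upwards [h2, h3] with j hj1 hj2
  have h4 : n + 1 ≤ M j := Nat.le_findGreatest hj2 hj1
  have h5 : atom j (n + 1) ∈ p j := mem_of_superset (hp2 j) (hmono j _ _ h4)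
  by_cases hj : j ∈ a n
  · refine ⟨fun _ => hj, fun _ => mem_of_superset h5 fun i hi => ?_⟩
    exact (hi n (Nat.lt_succ_self n)).2 hj
  · refine ⟨fun h => ?_, fun h => absurd h hj⟩
    have h6 : (a n)ᶜ ∈ p j := mem_of_superset h5 fun i hi hi2 =>
      hj ((hi n (Nat.lt_succ_self n)).1 hi2)
    exact absurd h (Ultrafilter.compl_mem_iff_notMem.1 h6)

end Pool.Agent.R634.CH
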