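import Pool.Agent.R634.CH.Rec
import Pool.Agent.R634.CH.Near

/-!
# Homomorphisms of `P(ℕ)/fin` with prescribed behaviour on `ω₁` many almost disjoint sets
-/

set_option autoImplicit false

open Set Filter

namespace Pool.Agent.R634.CH

universe u v

variable {I : Type u}

/-- Boolean combinations -/
def comb (b : I → Set ℕ) (F : Finset (I × Bool)) : Set ℕ := {z | ∀ p ∈ F, (z ∈ b p.1 ↔ p.2 = true)}

theorem finite_of_ev {p : ℕ → Prop} (h : ∀ᶠ z in cofinite, ¬ p z) : {z | p z}.Finite := by
  rw [eventually_cofinite] at h
  simpa using h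

theorem ev_of_finite {p : ℕ → Prop} (h : {z | p z}.Finite) : ∀ᶠ z in cofinite, ¬ p z := by
  rw [eventually_cofinite]
  simpa using h

theorem comb_mem (a : I → Set ℕ) (F : Finset (I × Bool)) (u : Ultrafilter ℕ)
    (h : ∀ p ∈ F, (a p.1 ∈ u ↔ p.2 = true)) : comb a F ∈ u := by
  have h1 : comb a F = ⋂ p ∈ F, {z | z ∈ a p.1 ↔ p.2 = true} := by
    ext z
    simp [comb]
  rw [h1]
  refine (biInter_finset_mem F).2 fun p hp => ?_
  by_cases hp2 : p.2 = true
  · exact mem_of_superset ((h p hp).2 hp2) fun z hz => ⟨fun _ => hp2, fun _ => hz⟩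
  · have h2 : a p.1 ∉ u := fun h3 => hp2 ((h p hp).1 h3)
    exact mem_of_superset (Ultrafilter.compl_mem_iff_notMem.2 h2) fun z hz =>
      ⟨fun h3 => absurd h3 hz, fun h3 => absurd h3 hp2⟩

theorem step_abs (J : Set I) (hJ : J.Countable) (a b : I → Set ℕ) {T : Type v} [Countable T]
    (E : T → Set ℕ) (Q : T → ℕ → Ultrafilter ℕ) (x : Set ℕ)
    (h1 : ∀ F : Finset (I × Bool), (∀ p ∈ F, p.1 ∈ J) → (comb a F).Finite → (comb b F).Finite)
    (h2 : ∀ t, ∀ j ∈ J, ∀ᶠ z in cofinite, z ∈ E t → (z ∈ b j ↔ a j ∈ Q t z))
    (h3 : ∀ (t : T) (s : Set ℕ), s.Finite → ∀ᶠ z in cofinite, z ∈ E t → s ∉ Q t z)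
    (h4 : ∀ t t', t ≠ t' → (E t ∩ E t').Finite) :
    ∃ y : Set ℕ, (∀ F : Finset (I × Bool), (∀ p ∈ F, p.1 ∈ J) →
        (comb a F ∩ x).Finite → (comb b F ∩ y).Finite) ∧
      (∀ F : Finset (I × Bool), (∀ p ∈ F, p.1 ∈ J) →
        (comb a F \ x).Finite → (comb b F \ y).Finite) ∧
      ∀ t, ∀ᶠ z in cofinite, z ∈ E t → (z ∈ y ↔ x ∈ Q t z) := by
  classical
  have hF : {F : Finset (I × Bool) | ∀ p ∈ F, p.1 ∈ J}.Countable := by
    have h5 : {t : Set (I × Bool) | t.Finite ∧ t ⊆ J ×ˢ univ}.Countable :=
      Set.countable_ofPred_finite_subset (hJ.prod countable_univ)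
    have h6 : ((fun F : Finset (I × Bool) => (F : Set (I × Bool))) ⁻¹'
        {t : Set (I × Bool) | t.Finite ∧ t ⊆ J ×ˢ univ}).Countable :=
      h5.preimage Finset.coe_injective
    refine h6.mono fun F hF => ?_
    have h7 : (F : Set (I × Bool)).Finite ∧ (F : Set (I × Bool)) ⊆ J ×ˢ univ :=
      ⟨F.finite_toSet, fun p hp => ⟨hF p hp, mem_univ _⟩⟩
    exact h7
  have key : ∀ t (F : Finset (I × Bool)), (∀ p ∈ F, p.1 ∈ J) →
      ∀ᶠ z in cofinite, z ∈ E t → z ∈ comb b F → comb a F ∈ Q t z := by
    intro t F hFJ
    have h5 : ∀ᶠ z in cofinite, ∀ p ∈ F, (z ∈ E t → (z ∈ b p.1 ↔ a p.1 ∈ Q t z)) := by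
      rw [eventually_all_finset]
      intro p hp
      exact h2 t p.1 (hFJ p hp)
    filter_upwards [h5] with z hz hzE hzb
    refine comb_mem a F _ fun p hp => ?_
    rw [← hz p hp hzE]
    exact hzb p hp
  obtain ⟨y, hy1, hy2⟩ := interp
    (A := (comb b '' {F | (∀ p ∈ F, p.1 ∈ J) ∧ (comb a F \ x).Finite}) ∪
      range (fun t => E t ∩ {z | x ∈ Q t z}))
    (B := (comb b '' {F | (∀ p ∈ F, p.1 ∈ J) ∧ (comb a F ∩ x).Finite}) ∪
      range (fun t => E t ∩ {z | x ∉ Q t z}))
    (((hF.mono fun F hF => hF.1).image _).union (countable_range _))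
    (((hF.mono fun F hF => hF.1).image _).union (countable_range _))
    (by
      rintro _ (⟨F, ⟨hF1, hF2⟩, rfl⟩ | ⟨t, rfl⟩) _ (⟨G, ⟨hG1, hG2⟩, rfl⟩ | ⟨s, rfl⟩)
      · have h5 : (comb b (F ∪ G)).Finite := by
          refine h1 _ ?_ ?_
          · intro p hp
            rcases Finset.mem_union.1 hp with hp | hp
            · exact hF1 p hp
            · exact hG1 p hp
          · refine (hF2.union hG2).subset fun z hz => ?_
            have hzF : z ∈ comb a F := fun p hp => hz p (Finset.mem_union_left _ hp)
            have hzG : z ∈ comb a G := fun p hp => hz p (Finset.mem_union_right _ hp)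
            by_cases hzx : z ∈ x
            · exact Or.inr ⟨hzG, hzx⟩
            · exact Or.inl ⟨hzF, hzx⟩
        refine h5.subset ?_
        rintro z ⟨hz1, hz2⟩ p hp
        rcases Finset.mem_union.1 hp with hp | hp
        · exact hz1 p hp
        · exact hz2 p hp
      · refine finite_of_ev (p := fun z => z ∈ comb b F ∩ (E s ∩ {z | x ∉ Q s z})) ?_
        filter_upwards [key s F hF1, h3 s _ hF2] with z hz1 hz2
        rintro ⟨hz3, hz4, hz5⟩
        apply hz2 hz4
        have h6 : comb a F \ x = comb a F ∩ xᶜ := rfl
        rw [h6]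
        exact inter_mem (hz1 hz4 hz3) (Ultrafilter.compl_mem_iff_notMem.2 hz5)
      · refine finite_of_ev (p := fun z => z ∈ (E t ∩ {z | x ∈ Q t z}) ∩ comb b G) ?_
        filter_upwards [key t G hG1, h3 t _ hG2] with z hz1 hz2
        rintro ⟨⟨hz4, hz5⟩, hz3⟩
        exact hz2 hz4 (inter_mem (hz1 hz4 hz3) hz5)
      · by_cases hts : t = s
        · subst hts
          have h5 : (E t ∩ {z | x ∈ Q t z}) ∩ (E t ∩ {z | x ∉ Q t z}) = ∅ := by
            ext z
            simp only [mem_inter_iff, mem_ofPred_eq, mem_empty_iff_false, iff_false]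
            rintro ⟨⟨-, hz⟩, -, hz'⟩
            exact hz' hz
          show ((E t ∩ {z | x ∈ Q t z}) ∩ (E t ∩ {z | x ∉ Q t z})).Finite
          rw [h5]
          exact finite_empty
        · exact (h4 t s hts).subset fun z hz => ⟨hz.1.1, hz.2.1⟩)
  refine ⟨y, fun F hF1 hF2 => ?_, fun F hF1 hF2 => ?_, fun t => ?_⟩
  · exact hy2 _ (Or.inl ⟨F, ⟨hF1, hF2⟩, rfl⟩)
  · exact hy1 _ (Or.inl ⟨F, ⟨hF1, hF2⟩, rfl⟩)
  · have h5 := ev_of_finite (p := fun z => z ∈ (E t ∩ {z | x ∈ Q t z}) \ y)
      (hy1 _ (Or.inr ⟨t, rfl⟩))
    have h6 := ev_of_finite (p := fun z => z ∈ (E t ∩ {z | x ∉ Q t z}) ∩ y)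
      (hy2 _ (Or.inr ⟨t, rfl⟩))
    filter_upwards [h5, h6] with z hz1 hz2 hzE
    constructor
    · intro hzy
      by_contra hcon
      exact hz2 ⟨⟨hzE, hcon⟩, hzy⟩
    · intro hx
      by_contra hcon
      exact hz1 ⟨⟨hzE, hx⟩, hcon⟩

/-- the sum of the coordinates -/
def pi (z : ℕ) : ℕ := (Nat.unpair z).1 + (Nat.unpair z).2

/-- the second coordinate -/
def ka (z : ℕ) : ℕ := (Nat.unpair z).2

theorem tendsto_pi : Tendsto pi cofinite cofinite := by
  intro s hs
  rw [mem_map, mem_cofinite, ← Set.preimage_compl]
  refine (mem_cofinite.1 hs).preimage' fun y _ => ?_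
  refine (Set.finite_Iio ((y + 1) ^ 2)).subset fun m hm => ?_
  have hm' : pi m = y := hm
  rw [Set.mem_Iio, ← Nat.pair_unpair m]
  refine (Nat.pair_lt_max_add_one_sq _ _).trans_le ?_
  unfold pi at hm'
  gcongr
  omega

/-- the graph of `f i` -/
def D (f : I → ℕ → ℕ) (i : I) : Set ℕ := {z | ka z = f i (pi z)}

/-- the part above the graph of `f i` -/
def O (f : I → ℕ → ℕ) (i : I) : Set ℕ := {z | f i (pi z) < ka z}

theorem exists_hom [LinearOrder I] [WellFoundedLT I] (hI : ∀ i : I, (Iio i).Countable)
    (a : I → Set ℕ) (f : I → ℕ → ℕ) (hf : ∀ i j, i < j → ∀ᶠ n in cofinite, f i n < f j n)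
    (q : I → ℕ → Ultrafilter ℕ)
    (hq1 : ∀ (i : I) (s : Set ℕ), s.Finite → ∀ᶠ j in cofinite, s ∉ q i j)
    (hq2 : ∀ i j, i < j → ∀ᶠ n in cofinite, (a i ∈ q j n ↔ n ∈ a i)) :
    ∃ b : I → Set ℕ, (∀ F : Finset (I × Bool), (comb a F).Finite → (comb b F).Finite) ∧
      ∀ i j, ∀ᶠ z in cofinite, z ∈ D f i → (z ∈ b j ↔ a j ∈ q i (pi z)) := by
  classical
  have hfp : ∀ i j, i < j → ∀ᶠ z in cofinite, f i (pi z) < f j (pi z) := fun i j hij =>
    tendsto_pi.eventually (hf i j hij)
  -- the behaviour on later graphs follows from the behaviour above the graph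
  have hlate : ∀ (b : I → Set ℕ) (i j : I), j < i →
      (∀ᶠ z in cofinite, z ∈ O f j → (z ∈ b j ↔ pi z ∈ a j)) →
      ∀ᶠ z in cofinite, z ∈ D f i → (z ∈ b j ↔ a j ∈ q i (pi z)) := by
    intro b i j hij h
    filter_upwards [h, hfp j i hij, tendsto_pi.eventually (hq2 j i hij)] with z hz1 hz2 hz3 hzD
    have hzO : z ∈ O f j := by
      have h5 : ka z = f i (pi z) := hzD
      show f j (pi z) < ka z
      rw [h5]
      exact hz2
    rw [hz1 hzO, hz3]
  obtain ⟨b, hb⟩ := exists_rec (I := I) (β := Set ℕ)
    (fun i b => (∀ F : Finset (I × Bool), (∀ p ∈ F, p.1 ≤ i) → (comb a F).Finite →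
        (comb b F).Finite) ∧
      (∀ j ≤ i, ∀ᶠ z in cofinite, z ∈ D f j → (z ∈ b i ↔ a i ∈ q j (pi z))) ∧
      (∀ᶠ z in cofinite, z ∈ O f i → (z ∈ b i ↔ pi z ∈ a i)))
    (by
      intro i b b' hbb h
      refine ⟨?_, ?_, ?_⟩
      · intro F hF hfin
        have h5 : comb b' F = comb b F := by
          ext z
          constructor
          · intro hz p hp
            rw [hbb p.1 (hF p hp)]
            exact hz p hp
          · intro hz p hp
            rw [← hbb p.1 (hF p hp)]
            exact hz p hp
        rw [h5]
        exact h.1 F hF hfin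
      · rw [← hbb i le_rfl]
        exact h.2.1
      · rw [← hbb i le_rfl]
        exact h.2.2)
    (by
      intro i b hb
      have : Countable (Iic i) := by
        have h5 : (Iic i).Countable := by
          have h6 : Iic i = insert i (Iio i) := (Iio_insert (a := i)).symm
          rw [h6]
          exact (hI i).insert i
        exact h5.to_subtype
      obtain ⟨y, hy1, hy2, hy3⟩ := step_abs (Iio i) (hI i) a b (T := Option (Iic i))
        (fun t => t.elim (O f i) (fun j => D f (j : I)))
        (fun t z => t.elim (pure (pi z)) (fun j => q (j : I) (pi z))) (a i)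
        (by
          intro F hF hfin
          rcases F.eq_empty_or_nonempty with rfl | hne
          · exfalso
            have h5 : comb a ∅ = univ := by
              ext z
              simp [comb]
            rw [h5] at hfin
            exact infinite_univ hfin
          · obtain ⟨m, hm, hmax⟩ := Finset.exists_max_image F Prod.fst hne
            exact (hb m.1 (hF m hm)).1 F hmax hfin)
        (by
          rintro (_ | ⟨k, hk⟩) j hj
          · filter_upwards [(hb j hj).2.2, hfp j i hj] with z hz1 hz2 hzO
            have hzO' : z ∈ O f j := lt_trans hz2 hzO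
            rw [hz1 hzO']
            rfl
          · rcases le_or_gt k j with hkj | hkj
            · exact (hb j hj).2.1 k hkj
            · exact hlate b k j hkj (hb j hj).2.2)
        (by
          rintro (_ | ⟨k, hk⟩) s hs
          · filter_upwards [tendsto_pi.eventually (hs.compl_mem_cofinite : sᶜ ∈ cofinite)] with z hz _
            exact hz
          · filter_upwards [tendsto_pi.eventually (hq1 k s hs)] with z hz _
            exact hz)
        (by
          have h5 : ∀ k ≤ i, (O f i ∩ D f k).Finite := by
            intro k hk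
            have h7 : ∀ᶠ z in cofinite, f k (pi z) ≤ f i (pi z) := by
              rcases hk.lt_or_eq with hk | rfl
              · filter_upwards [hfp k i hk] with z hz
                exact hz.le
              · exact Eventually.of_forall fun z => le_rfl
            refine finite_of_ev (p := fun z => z ∈ O f i ∩ D f k) ?_
            filter_upwards [h7] with z hz
            rintro ⟨hz1, hz2⟩
            have hz1' : f i (pi z) < ka z := hz1
            have hz2' : ka z = f k (pi z) := hz2
            omega
          have h6 : ∀ k l, k < l → (D f k ∩ D f l).Finite := by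
            intro k l hkl
            refine finite_of_ev (p := fun z => z ∈ D f k ∩ D f l) ?_
            filter_upwards [hfp k l hkl] with z hz
            rintro ⟨hz1, hz2⟩
            have hz1' : ka z = f k (pi z) := hz1
            have hz2' : ka z = f l (pi z) := hz2
            omega
          rintro (_ | ⟨k, hk⟩) (_ | ⟨l, hl⟩) hne
          · exact absurd rfl hne
          · exact h5 l hl
          · rw [inter_comm]
            exact h5 k hk
          · have hkl : k ≠ l := by
              rintro rfl
              exact hne rfl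
            rcases lt_or_gt_of_ne hkl with h | h
            · exact h6 k l h
            · rw [inter_comm]
              exact h6 l k h)
      refine ⟨y, ?_, ?_, ?_⟩
      · intro F hF hfin
        set F' := F.filter (fun p => p.1 ≠ i) with hF'
        have hF'1 : ∀ p ∈ F', p.1 ∈ Iio i := by
          intro p hp
          rw [hF', Finset.mem_filter] at hp
          exact lt_of_le_of_ne (hF p hp.1) hp.2
        have hcomb : comb (Function.update b i y) F ⊆ comb b F' := by
          intro z hz p hp
          have h5 := hz p (Finset.mem_of_mem_filter p hp)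
          rwa [Function.update_of_ne (hF'1 p hp).ne] at h5
        have hsub : ∀ z, z ∈ comb a F' → (∀ t, (i, t) ∈ F → (z ∈ a i ↔ t = true)) →
            z ∈ comb a F := by
          intro z hz h5 p hp
          by_cases hpi : p.1 = i
          · have h6 := h5 p.2 (by rw [← hpi]; exact hp)
            rw [hpi]
            exact h6
          · exact hz p (Finset.mem_filter.2 ⟨hp, hpi⟩)
        by_cases ht : (i, true) ∈ F
        · by_cases hff : (i, false) ∈ F
          · have h5 : comb (Function.update b i y) F = ∅ := by
              ext z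
              simp only [mem_empty_iff_false, iff_false]
              intro hz
              have h6 := hz _ ht
              have h7 := hz _ hff
              simp only [iff_true] at h6
              simp only [Bool.false_eq_true, iff_false] at h7
              exact h7 h6
            rw [h5]
            exact finite_empty
          · have h5 : (comb a F' ∩ a i).Finite := by
              refine hfin.subset fun z hz => hsub z hz.1 fun t htF => ?_
              cases t with
              | true => exact ⟨fun _ => rfl, fun _ => hz.2⟩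
              | false => exact absurd htF hff
            refine (hy1 F' hF'1 h5).subset fun z hz => ⟨hcomb hz, ?_⟩
            have h6 := hz _ ht
            simp only [Function.update_self, iff_true] at h6
            exact h6
        · by_cases hff : (i, false) ∈ F
          · have h5 : (comb a F' \ a i).Finite := by
              refine hfin.subset fun z hz => hsub z hz.1 fun t htF => ?_
              cases t with
              | true => exact absurd htF ht
              | false => exact ⟨fun h => absurd h hz.2, fun h => absurd h (by simp)⟩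
            refine (hy2 F' hF'1 h5).subset fun z hz => ⟨hcomb hz, ?_⟩
            have h6 := hz _ hff
            simp only [Function.update_self, Bool.false_eq_true, iff_false] at h6
            exact h6
          · have h5 : (comb a F').Finite := by
              refine hfin.subset fun z hz => hsub z hz fun t htF => ?_
              cases t with
              | true => exact absurd htF ht
              | false => exact absurd htF hff
            rcases F'.eq_empty_or_nonempty with h0 | hne
            · exfalso
              rw [h0] at h5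
              have h6 : comb a ∅ = univ := by
                ext z
                simp [comb]
              rw [h6] at h5
              exact infinite_univ h5
            · obtain ⟨m, hm, hmax⟩ := Finset.exists_max_image F' Prod.fst hne
              exact ((hb m.1 (hF'1 m hm)).1 F' hmax h5).subset hcomb
      · intro j hj
        rw [Function.update_self]
        exact hy3 (some ⟨j, hj⟩)
      · rw [Function.update_self]
        exact hy3 none)
  refine ⟨b, fun F hfin => ?_, fun i j => ?_⟩
  · rcases F.eq_empty_or_nonempty with rfl | hne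
    · exfalso
      have h5 : comb a ∅ = univ := by
        ext z
        simp [comb]
      rw [h5] at hfin
      exact infinite_univ hfin
    · obtain ⟨m, hm, hmax⟩ := Finset.exists_max_image F Prod.fst hne
      exact (hb m.1).1 F hmax hfin
  · rcases le_or_gt i j with hij | hij
    · exact (hb j).2.1 i hij
    · exact hlate b i j hij (hb j).2.2

end Pool.Agent.R634.CH
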