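import Pool.Agent.R634.CH.Near

/-!
# Operators on `C(βℕ ∖ ℕ)`
-/

set_option autoImplicit false

open Set Filter Topology
open scoped BoundedContinuousFunction

namespace Pool.Agent.R634.CH

universe w

/-- The remainder `βℕ ∖ ℕ`: the nonprincipal ultrafilters on `ℕ`, as a subspace of the compact space
`βℕ` of all ultrafilters on `ℕ`. -/
abbrev Rem : Type := {u : Ultrafilter ℕ // ∀ n, u ≠ pure n}

theorem fin_notMem (u : Rem) {s : Set ℕ} (hs : s.Finite) : s ∉ u.1 := by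
  intro h
  obtain ⟨x, -, hx⟩ := Ultrafilter.eq_pure_of_finite_mem hs h
  exact u.2 x hx

theorem cofin_mem (u : Rem) {s : Set ℕ} (hs : sᶜ.Finite) : s ∈ u.1 := by
  have h := fin_notMem u hs
  rwa [Ultrafilter.compl_notMem_iff] at h

theorem ev_mem (u : Rem) {p : ℕ → Prop} (h : ∀ᶠ n in cofinite, p n) : {n | p n} ∈ u.1 :=
  cofin_mem u (show ({n | p n}ᶜ).Finite from eventually_cofinite.1 h)

theorem isClosed_rem : IsClosed {u : Ultrafilter ℕ | ∀ n, u ≠ pure n} := by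
  have h1 : {u : Ultrafilter ℕ | ∀ n, u ≠ pure n} = ⋂ n : ℕ, {u : Ultrafilter ℕ | ({n} : Set ℕ)ᶜ ∈ u} := by
    ext u
    constructor
    · intro h
      refine mem_iInter.2 fun n => ?_
      exact cofin_mem ⟨u, h⟩ (by simp)
    · intro h n hn
      have h2 : ({n} : Set ℕ)ᶜ ∈ u := mem_iInter.1 h n
      rw [hn] at h2
      exact h2 rfl
  rw [h1]
  exact isClosed_iInter fun n => ultrafilter_isClosed_basic _

instance : CompactSpace Rem := isCompact_iff_compactSpace.1 isClosed_rem.isCompact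

theorem tendsto_ultra {α : Type*} {F : Filter α} {g : α → Rem} {v : Rem}
    (h : ∀ s ∈ v.1, ∀ᶠ x in F, s ∈ (g x).1) : Tendsto g F (𝓝 v) := by
  rw [tendsto_subtype_rng, TopologicalSpace.tendsto_nhds_generateFrom_iff]
  rintro _ ⟨s, rfl⟩ hs
  exact h s hs

theorem continuous_ultra {X : Type*} [TopologicalSpace X] {g : X → Rem}
    (h : ∀ s, IsOpen {x | s ∈ (g x).1}) : Continuous g := by
  refine Continuous.subtype_mk ?_ _
  refine continuous_generateFrom_iff.2 ?_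
  rintro _ ⟨s, rfl⟩
  exact h s

variable {𝕜 : Type w} [RCLike 𝕜]

/-- the extension of a bounded sequence to the remainder -/
theorem exists_ext (𝕜 : Type w) [RCLike 𝕜] :
    ∃ A : (ℕ →ᵇ 𝕜) →L[𝕜] C(Rem, 𝕜), ∀ (c : ℕ →ᵇ 𝕜) (u : Rem), Tendsto c u.1 (𝓝 (A c u)) := by
  have h1 : ∀ c : ℕ →ᵇ 𝕜, ∃ x : C(Rem, 𝕜), (∀ u : Rem, Tendsto c u.1 (𝓝 (x u))) ∧ ‖x‖ ≤ ‖c‖ := by
    intro c
    have : CompactSpace (Metric.closedBall (0 : 𝕜) ‖c‖) :=
      isCompact_iff_compactSpace.1 (isCompact_closedBall 0 ‖c‖)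
    let c' : ℕ → Metric.closedBall (0 : 𝕜) ‖c‖ := fun n => ⟨c n, by
      rw [mem_closedBall_zero_iff]
      exact c.norm_coe_le_norm n⟩
    refine ⟨⟨fun u => ((Ultrafilter.extend c' u.1 : Metric.closedBall (0 : 𝕜) ‖c‖) : 𝕜),
      continuous_subtype_val.comp
        ((continuous_ultrafilter_extend c').comp continuous_subtype_val)⟩, ?_, ?_⟩
    · intro u
      have h2 : (↑(u.1.map c') : Filter (Metric.closedBall (0 : 𝕜) ‖c‖)) ≤
          𝓝 (Ultrafilter.extend c' u.1) := ultrafilter_extend_eq_iff.1 rfl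
      have h3 : Tendsto c' u.1 (𝓝 (Ultrafilter.extend c' u.1)) := h2
      exact (continuous_subtype_val.tendsto _).comp h3
    · refine (ContinuousMap.norm_le _ (norm_nonneg _)).2 fun u => ?_
      exact mem_closedBall_zero_iff.1 (Ultrafilter.extend c' u.1).2
  choose x hx hx2 using h1
  refine ⟨LinearMap.mkContinuous
    { toFun := x
      map_add' := fun c d => by
        ext u
        exact tendsto_nhds_unique (hx (c + d) u) ((hx c u).add (hx d u))
      map_smul' := fun r c => by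
        ext u
        exact tendsto_nhds_unique (hx (r • c) u) ((hx c u).const_smul r) } 1 (fun c => by
    rw [one_mul]
    exact hx2 c), fun c u => hx c u⟩

/-- evaluation along a sequence -/
noncomputable def evs (p : ℕ → Rem) : C(Rem, 𝕜) →L[𝕜] (ℕ →ᵇ 𝕜) :=
  LinearMap.mkContinuous
    { toFun := fun x => BoundedContinuousFunction.ofNormedAddCommGroupDiscrete
        (fun n => x (p n)) ‖x‖ (fun n => x.norm_coe_le_norm (p n))
      map_add' := fun _ _ => rfl
      map_smul' := fun _ _ => rfl } 1 (fun x => by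
    rw [one_mul]
    exact (BoundedContinuousFunction.norm_le (norm_nonneg _)).2 fun n => x.norm_coe_le_norm (p n))

theorem evs_apply (p : ℕ → Rem) (x : C(Rem, 𝕜)) (n : ℕ) : evs p x n = x (p n) := rfl

/-- composition with a self-map of the remainder -/
noncomputable def cmp (g : C(Rem, Rem)) : C(Rem, 𝕜) →L[𝕜] C(Rem, 𝕜) :=
  LinearMap.mkContinuous
    { toFun := fun x => x.comp g
      map_add' := fun _ _ => rfl
      map_smul' := fun _ _ => rfl } 1 (fun x => by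
    rw [one_mul]
    exact (ContinuousMap.norm_le _ (norm_nonneg _)).2 fun u => x.norm_coe_le_norm (g u))

theorem cmp_apply (g : C(Rem, Rem)) (x : C(Rem, 𝕜)) (u : Rem) : cmp g x u = x (g u) := rfl

theorem norm_cmp_le (g : C(Rem, Rem)) : ‖(cmp g : C(Rem, 𝕜) →L[𝕜] C(Rem, 𝕜))‖ ≤ 1 :=
  LinearMap.mkContinuous_norm_le _ zero_le_one _

/-- A composition operator of this form factors through `ℓ_∞`. -/
theorem cmp_factor (A : (ℕ →ᵇ 𝕜) →L[𝕜] C(Rem, 𝕜))
    (hA : ∀ (c : ℕ →ᵇ 𝕜) (u : Rem), Tendsto c u.1 (𝓝 (A c u))) (p : ℕ → Rem) (g : C(Rem, Rem))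
    (hg : ∀ (u : Rem) (s : Set ℕ), s ∈ (g u).1 → {n | s ∈ (p n).1} ∈ u.1) :
    (cmp g : C(Rem, 𝕜) →L[𝕜] C(Rem, 𝕜)) = A.comp (evs p) := by
  ext x u
  change x (g u) = A (evs p x) u
  have h1 : Tendsto p u.1 (𝓝 (g u)) := tendsto_ultra fun s hs => hg u s hs
  have h2 : Tendsto (fun n => x (p n)) u.1 (𝓝 (x (g u))) := (x.continuous.tendsto _).comp h1
  exact tendsto_nhds_unique h2 (hA (evs p x) u)

/-- `ℓ_∞` is a complemented subspace. -/
theorem exists_compl (𝕜 : Type w) [RCLike 𝕜] : ∃ (ι : (ℕ →ᵇ 𝕜) →L[𝕜] C(Rem, 𝕜))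
    (ρ : C(Rem, 𝕜) →L[𝕜] (ℕ →ᵇ 𝕜)), ∀ c, ρ (ι c) = c := by
  obtain ⟨A, hA⟩ := exists_ext 𝕜
  have h1 : ∀ n : ℕ, {m : ℕ | (Nat.unpair m).1 = n}.Infinite := by
    intro n
    refine Set.infinite_of_injective_forall_mem (f := fun k : ℕ => Nat.pair n k) ?_ ?_
    · intro k l hkl
      exact (Nat.pair_eq_pair.1 hkl).2
    · intro k
      show (Nat.unpair (Nat.pair n k)).1 = n
      rw [Nat.unpair_pair]
  choose p hp1 hp2 using fun n => exists_nonprincipal (h1 n)
  let L : (ℕ →ᵇ 𝕜) →L[𝕜] (ℕ →ᵇ 𝕜) := LinearMap.mkContinuous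
    { toFun := fun c => c.compContinuous ⟨fun m => (Nat.unpair m).1, continuous_of_discreteTopology⟩
      map_add' := fun _ _ => rfl
      map_smul' := fun _ _ => rfl } 1 (fun c => by
    rw [one_mul]
    exact (BoundedContinuousFunction.norm_le (norm_nonneg _)).2 fun n => c.norm_coe_le_norm _)
  have hL : ∀ c m, L c m = c (Nat.unpair m).1 := fun c m => rfl
  refine ⟨A.comp L, evs fun n => ⟨p n, hp1 n⟩, fun c => ?_⟩
  ext n
  change A (L c) ⟨p n, hp1 n⟩ = c n
  have h2 : Tendsto (L c) (p n) (𝓝 (c n)) := by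
    refine tendsto_const_nhds.congr' ?_
    filter_upwards [hp2 n] with m hm
    rw [hL, show (Nat.unpair m).1 = n from hm]
  exact tendsto_nhds_unique (hA (L c) ⟨p n, hp1 n⟩) h2

end Pool.Agent.R634.CH
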