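import Pool.Agent.R634.CH.Hom
import Pool.Agent.R634.CH.Ops

/-!
# Continuous maps and operators from the homomorphisms
-/

set_option autoImplicit false

open Set Filter Topology
open scoped BoundedContinuousFunction Cardinal

namespace Pool.Agent.R634.CH

universe u w

/-- the self-map of the remainder induced by a homomorphism modulo finite sets -/
theorem exists_map (γ : Set ℕ → Set ℕ) (h1 : ∀ s, s.Finite → (γ s).Finite)
    (h2 : ∀ s, sᶜ.Finite → (γ s)ᶜ.Finite) (h3 : ∀ s t, s ⊆ t → (γ s \ γ t).Finite)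
    (h4 : ∀ s t, ((γ s ∩ γ t) \ γ (s ∩ t)).Finite) (h5 : ∀ s, (γ s ∩ γ sᶜ).Finite)
    (h6 : ∀ s, ((γ s)ᶜ ∩ (γ sᶜ)ᶜ).Finite) :
    ∃ g : C(Rem, Rem), ∀ u s, s ∈ (g u).1 ↔ γ s ∈ u.1 := by
  have hdiff : ∀ (u : Rem) (s t : Set ℕ), (s \ t).Finite → s ∈ u.1 → t ∈ u.1 := by
    intro u s t hst hs
    have h7 : (s \ t)ᶜ ∈ u.1 := cofin_mem u (by rwa [compl_compl])
    filter_upwards [hs, h7] with n hn hn2
    by_contra hcon
    exact hn2 ⟨hn, hcon⟩
  let F : Rem → Filter ℕ := fun u =>
    { sets := {s | γ s ∈ u.1}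
      univ_sets := cofin_mem u (h2 univ (by simp))
      sets_of_superset := fun {s t} hs hst => hdiff u _ _ (h3 s t hst) hs
      inter_sets := fun {s t} hs ht => hdiff u _ _ (h4 s t) (inter_mem hs ht) }
  have hF : ∀ (u : Rem) (s : Set ℕ), sᶜ ∉ F u ↔ s ∈ F u := by
    intro u s
    change γ sᶜ ∉ u.1 ↔ γ s ∈ u.1
    constructor
    · intro h
      by_contra hcon
      exact fin_notMem u (h6 s) (inter_mem (Ultrafilter.compl_mem_iff_notMem.2 hcon)
        (Ultrafilter.compl_mem_iff_notMem.2 h))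
    · intro h h'
      exact fin_notMem u (h5 s) (inter_mem h h')
  let G : Rem → Rem := fun u => ⟨Ultrafilter.ofComplNotMemIff (F u) (hF u), by
    intro n hn
    have h7 : ({n} : Set ℕ) ∈ (pure n : Ultrafilter ℕ) := rfl
    rw [← hn] at h7
    have h8 : γ {n} ∈ u.1 := h7
    exact fin_notMem u (h1 _ (finite_singleton n)) h8⟩
  refine ⟨⟨G, continuous_ultra fun s => ?_⟩, fun u s => Iff.rfl⟩
  exact (ultrafilter_isOpen_basic (γ s)).preimage continuous_subtype_val

/-- the map induced by a finite-to-one map -/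
theorem exists_ind (τ : ℕ → ℕ) (hτ : Tendsto τ cofinite cofinite) :
    ∃ g : C(Rem, Rem), ∀ u s, s ∈ (g u).1 ↔ τ ⁻¹' s ∈ u.1 := by
  refine exists_map (fun s => τ ⁻¹' s) ?_ ?_ ?_ ?_ ?_ ?_
  · intro s hs
    have h := hτ (hs.compl_mem_cofinite)
    rw [mem_map, mem_cofinite, ← preimage_compl, compl_compl] at h
    exact h
  · intro s hs
    have h := hτ (show s ∈ cofinite from hs)
    rwa [mem_map, mem_cofinite] at h
  · intro s t hst
    have h : τ ⁻¹' s \ τ ⁻¹' t = ∅ := by
      ext n
      simp only [Set.mem_sdiff, mem_preimage, mem_empty_iff_false, iff_false, not_and, not_not]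
      exact fun h => hst h
    rw [h]
    exact finite_empty
  · intro s t
    have h : (τ ⁻¹' s ∩ τ ⁻¹' t) \ τ ⁻¹' (s ∩ t) = ∅ := by
      ext n
      simp
    rw [h]
    exact finite_empty
  · intro s
    have h : τ ⁻¹' s ∩ τ ⁻¹' sᶜ = ∅ := by
      ext n
      simp
    rw [h]
    exact finite_empty
  · intro s
    have h : (τ ⁻¹' s)ᶜ ∩ (τ ⁻¹' sᶜ)ᶜ = ∅ := by
      ext n
      simp
    rw [h]
    exact finite_empty

/-- Homomorphisms to continuous maps. -/
theorem exists_map' {I : Type u} (e : I ≃ Set ℕ) (b : I → Set ℕ)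
    (hb : ∀ F : Finset (I × Bool), (comb e F).Finite → (comb b F).Finite) :
    ∃ g : C(Rem, Rem), ∀ u s, s ∈ (g u).1 ↔ b (e.symm s) ∈ u.1 := by
  classical
  refine exists_map (fun s => b (e.symm s)) ?_ ?_ ?_ ?_ ?_ ?_
  · intro s hs
    have h := hb {(e.symm s, true)} (hs.subset fun n hn => by simpa [comb] using hn)
    exact h.subset fun n hn => by simpa [comb] using hn
  · intro s hs
    have h := hb {(e.symm s, false)} (hs.subset fun n hn => by simpa [comb] using hn)
    exact h.subset fun n hn => by simpa [comb] using hn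
  · intro s t hst
    have h := hb {(e.symm s, true), (e.symm t, false)} (by
      refine finite_empty.subset fun n hn => ?_
      simp only [comb, Finset.mem_insert, Finset.mem_singleton, forall_eq_or_imp, forall_eq,
        Equiv.apply_symm_apply, iff_true, Bool.false_eq_true, iff_false] at hn
      exact hn.2 (hst hn.1))
    exact h.subset fun n hn => by simpa [comb] using hn
  · intro s t
    have h := hb {(e.symm s, true), (e.symm t, true), (e.symm (s ∩ t), false)} (by
      refine finite_empty.subset fun n hn => ?_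
      simp only [comb, Finset.mem_insert, Finset.mem_singleton, forall_eq_or_imp, forall_eq,
        Equiv.apply_symm_apply, iff_true, Bool.false_eq_true, iff_false] at hn
      exact hn.2.2 ⟨hn.1, hn.2.1⟩)
    refine h.subset fun n hn => ?_
    intro p hp
    simp only [Finset.mem_insert, Finset.mem_singleton] at hp
    rcases hp with rfl | rfl | rfl
    · exact ⟨fun _ => rfl, fun _ => hn.1.1⟩
    · exact ⟨fun _ => rfl, fun _ => hn.1.2⟩
    · exact ⟨fun h => absurd h hn.2, fun h => absurd h (by simp)⟩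
  · intro s
    have h := hb {(e.symm s, true), (e.symm sᶜ, true)} (by
      refine finite_empty.subset fun n hn => ?_
      simp only [comb, Finset.mem_insert, Finset.mem_singleton, forall_eq_or_imp, forall_eq,
        Equiv.apply_symm_apply, iff_true] at hn
      exact hn.2 hn.1)
    exact h.subset fun n hn => by simpa [comb] using hn
  · intro s
    have h := hb {(e.symm s, false), (e.symm sᶜ, false)} (by
      refine finite_empty.subset fun n hn => ?_
      simp only [comb, Finset.mem_insert, Finset.mem_singleton, forall_eq_or_imp, forall_eq,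
        Equiv.apply_symm_apply, Bool.false_eq_true, iff_false] at hn
      exact hn.2 hn.1)
    exact h.subset fun n hn => by simpa [comb] using hn

/-- the main construction -/
theorem exists_TS (𝕜 : Type w) [RCLike 𝕜] (I : Type u) [LinearOrder I] [WellFoundedLT I]
    (hI : ∀ i : I, (Iio i).Countable) (e : I ≃ Set ℕ) :
    ∃ R : I → (C(Rem, 𝕜) →L[𝕜] C(Rem, 𝕜)), (∀ i, ‖R i‖ ≤ 1) ∧
      ∀ S : Set I, ∃ T : C(Rem, 𝕜) →L[𝕜] C(Rem, 𝕜), ∀ i, (i ∉ S → R i * T = 0) ∧
        (i ∈ S → ∃ (A : (ℕ →ᵇ 𝕜) →L[𝕜] C(Rem, 𝕜)) (B : C(Rem, 𝕜) →L[𝕜] (ℕ →ᵇ 𝕜)),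
          R i * T = 1 - A.comp B) := by
  classical
  obtain ⟨f0, hf01, hf02⟩ := exists_tower hI
  let f : I → ℕ → ℕ := fun i n => min (f0 i n) n
  have hfn : ∀ i n, f i n ≤ n := fun i n => min_le_right _ _
  have hf : ∀ i j, i < j → ∀ᶠ n in cofinite, f i n < f j n := by
    intro i j hij
    rw [Nat.cofinite_eq_atTop]
    filter_upwards [hf01 i, hf01 j, hf02 i j hij] with n hn1 hn2 hn3
    simp only [f]
    omega
  choose p hp1 hp2 using fun i : I => exists_near (e '' Iio i) ((hI i).image e)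
  -- the sections
  let τ : I → ℕ → ℕ := fun i n => Nat.pair (n - f i n) (f i n)
  have hpiτ : ∀ i n, pi (τ i n) = n := by
    intro i n
    have := hfn i n
    simp only [pi, τ, Nat.unpair_pair]
    omega
  have hτ : ∀ i, Tendsto (τ i) cofinite cofinite := fun i =>
    (Function.LeftInverse.injective (g := pi) (hpiτ i)).tendsto_cofinite
  have hτD : ∀ i n, τ i n ∈ D f i := by
    intro i n
    show ka (τ i n) = f i (pi (τ i n))
    rw [hpiτ]
    simp only [ka, τ, Nat.unpair_pair]
  choose gτ hgτ using fun i : I => exists_ind (τ i) (hτ i)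
  obtain ⟨gπ, hgπ⟩ := exists_ind pi tendsto_pi
  obtain ⟨A, hA⟩ := exists_ext 𝕜
  refine ⟨fun i => cmp (gτ i), fun i => norm_cmp_le _, fun S => ?_⟩
  let q : I → ℕ → Ultrafilter ℕ := fun i n => if i ∈ S then p i n else pure n
  have hq1 : ∀ (i : I) (s : Set ℕ), s.Finite → ∀ᶠ j in cofinite, s ∉ q i j := by
    intro i s hs
    by_cases hi : i ∈ S
    · refine Eventually.of_forall fun j => ?_
      simp only [q, if_pos hi]
      exact fin_notMem ⟨p i j, hp1 i j⟩ hs
    · filter_upwards [(hs.compl_mem_cofinite : sᶜ ∈ cofinite)] with j hj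
      simp only [q, if_neg hi]
      exact hj
  have hq2 : ∀ i j, i < j → ∀ᶠ n in cofinite, (e i ∈ q j n ↔ n ∈ e i) := by
    intro i j hij
    by_cases hj : j ∈ S
    · filter_upwards [hp2 j (e i) ⟨i, hij, rfl⟩] with n hn
      simp only [q, if_pos hj]
      exact hn
    · refine Eventually.of_forall fun n => ?_
      simp only [q, if_neg hj]
      exact Iff.rfl
  obtain ⟨b, hb1, hb2⟩ := exists_hom hI e f hf q hq1 hq2
  obtain ⟨g, hg⟩ := exists_map' e b hb1
  have hkey : ∀ (i : I) (u : Rem) (s : Set ℕ), s ∈ ((g.comp (gτ i)) u).1 ↔ {n | s ∈ q i n} ∈ u.1 := by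
    intro i u s
    change s ∈ (g (gτ i u)).1 ↔ _
    rw [hg, hgτ]
    have h7 : ∀ᶠ n in cofinite, (τ i n ∈ b (e.symm s) ↔ s ∈ q i n) := by
      filter_upwards [(hτ i).eventually (hb2 i (e.symm s))] with n hn
      have h8 := hn (hτD i n)
      rwa [hpiτ, e.apply_symm_apply] at h8
    have h9 := ev_mem u h7
    constructor
    · intro h
      filter_upwards [h, h9] with n hn1 hn2
      exact hn2.1 hn1
    · intro h
      filter_upwards [h, h9] with n hn1 hn2
      exact hn2.2 hn1
  have hid : ∀ (i : I) (u : Rem), gπ (gτ i u) = u := by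
    intro i u
    apply Subtype.ext
    apply Ultrafilter.ext
    intro s
    rw [hgπ, hgτ]
    have h7 : τ i ⁻¹' (pi ⁻¹' s) = s := by
      ext n
      simp only [mem_preimage, hpiτ]
    rw [h7]
  refine ⟨cmp gπ - cmp g, fun i => ⟨fun hi => ?_, fun hi => ?_⟩⟩
  · ext x u
    change x (gπ (gτ i u)) - x (g (gτ i u)) = 0
    have h7 : g (gτ i u) = u := by
      apply Subtype.ext
      apply Ultrafilter.ext
      intro s
      refine (hkey i u s).trans ?_
      have h8 : {n | s ∈ q i n} = s := by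
        ext n
        simp only [q, if_neg hi]
        exact Iff.rfl
      rw [h8]
    rw [hid, h7, sub_self]
  · refine ⟨A, evs fun n => ⟨p i n, hp1 i n⟩, ?_⟩
    rw [← cmp_factor A hA (fun n => ⟨p i n, hp1 i n⟩) (g.comp (gτ i)) (by
      intro u s hs
      have h8 := (hkey i u s).1 hs
      have h9 : {n | s ∈ q i n} = {n | s ∈ p i n} := by
        ext n
        simp only [q, if_pos hi]
      rw [h9] at h8
      exact h8)]
    ext x u
    change x (gπ (gτ i u)) - x (g (gτ i u)) = x u - x (g (gτ i u))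
    rw [hid]

end Pool.Agent.R634.CH
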