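import Mathlib

/-!
# Recursion, countable interpolation, and a tower of functions
-/

set_option autoImplicit false

open Set Filter

namespace Pool.Agent.R634.CH

universe u v

section recursion

variable {I : Type u} [LinearOrder I] [WellFoundedLT I] {β : Type v} [Nonempty β]

/-- Transfinite recursion with an invariant. -/
theorem exists_rec (P : I → (I → β) → Prop)
    (hdep : ∀ i b b', (∀ j ≤ i, b j = b' j) → P i b → P i b')
    (hstep : ∀ i b, (∀ j < i, P j b) → ∃ v, P i (Function.update b i v)) :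
    ∃ b : I → β, ∀ i, P i b := by
  classical
  let ext : (i : I) → ((j : I) → j < i → β) → I → β := fun i g j =>
    if h : j < i then g j h else Classical.arbitrary β
  let F : (i : I) → ((j : I) → j < i → β) → β := fun i g =>
    if h : ∃ v, P i (Function.update (ext i g) i v) then h.choose else Classical.arbitrary β
  let wf : WellFounded (fun i j : I => i < j) := wellFounded_lt
  let b : I → β := wf.fix F
  have hb : ∀ i, b i = F i (fun j _ => b j) := fun i => wf.fix_eq F i
  refine ⟨b, ?_⟩
  intro i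
  induction i using wf.induction with
  | _ i ih =>
    have h1 : ∀ j < i, ext i (fun j _ => b j) j = b j := by
      intro j hj
      simp only [ext, dif_pos hj]
    have h2 : ∃ v, P i (Function.update (ext i (fun j _ => b j)) i v) := by
      refine hstep i _ fun j hj => ?_
      refine hdep j b _ (fun k hk => ?_) (ih j hj)
      rw [h1 k (hk.trans_lt hj)]
    have h3 : b i = h2.choose := by
      rw [hb i]
      simp only [F]
      rw [dif_pos h2]
    refine hdep i _ b (fun j hj => ?_) h2.choose_spec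
    rcases hj.lt_or_eq with hj | rfl
    · rw [Function.update_of_ne hj.ne, h1 j hj]
    · rw [Function.update_self, h3]

end recursion

/-- Countable interpolation. -/
theorem interp {Ω : Type u} {A B : Set (Set Ω)} (hP : A.Countable) (hN : B.Countable)
    (h : ∀ P ∈ A, ∀ N ∈ B, (P ∩ N).Finite) :
    ∃ x : Set Ω, (∀ P ∈ A, (P \ x).Finite) ∧ ∀ N ∈ B, (N ∩ x).Finite := by
  rcases A.eq_empty_or_nonempty with rfl | hP0
  · exact ⟨∅, by simp, by simp⟩
  rcases B.eq_empty_or_nonempty with rfl | hN0
  · exact ⟨univ, by simp, by simp⟩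
  obtain ⟨p, hp⟩ := hP.exists_eq_range hP0
  obtain ⟨q, hq⟩ := hN.exists_eq_range hN0
  have hpq : ∀ m n, (p m ∩ q n).Finite := fun m n =>
    h _ (by rw [hp]; exact mem_range_self m) _ (by rw [hq]; exact mem_range_self n)
  refine ⟨⋃ m, (p m \ ⋃ n ∈ Finset.range (m + 1), q n), ?_, ?_⟩
  · intro P hPP
    rw [hp] at hPP
    obtain ⟨m, rfl⟩ := hPP
    have h1 : (⋃ n ∈ Finset.range (m + 1), (p m ∩ q n)).Finite :=
      Set.Finite.biUnion (Finset.finite_toSet _) fun n _ => hpq m n
    refine h1.subset fun z hz => ?_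
    have h2 : z ∈ ⋃ n ∈ Finset.range (m + 1), q n := by
      by_contra hcon
      exact hz.2 (mem_iUnion.2 ⟨m, hz.1, hcon⟩)
    simp only [mem_iUnion] at h2 ⊢
    obtain ⟨n, hn, hz2⟩ := h2
    exact ⟨n, hn, hz.1, hz2⟩
  · intro N hNN
    rw [hq] at hNN
    obtain ⟨n, rfl⟩ := hNN
    have h1 : (⋃ m ∈ Finset.range n, (p m ∩ q n)).Finite :=
      Set.Finite.biUnion (Finset.finite_toSet _) fun m _ => hpq m n
    refine h1.subset fun z hz => ?_
    obtain ⟨m, hm1, hm2⟩ := mem_iUnion.1 hz.2
    simp only [mem_iUnion]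
    refine ⟨m, ?_, hm1, hz.1⟩
    rw [Finset.mem_range]
    by_contra hcon
    apply hm2
    simp only [mem_iUnion]
    exact ⟨n, Finset.mem_range.2 (by omega), hz.1⟩

/-- A countable family of functions far below the identity is dominated by such a function. -/
theorem exists_dom (s : Set (ℕ → ℕ)) (hs : s.Countable)
    (h : ∀ f ∈ s, ∀ k : ℕ, ∀ᶠ n in atTop, f n + k ≤ n) :
    ∃ g : ℕ → ℕ, (∀ k : ℕ, ∀ᶠ n in atTop, g n + k ≤ n) ∧ ∀ f ∈ s, ∀ᶠ n in atTop, f n < g n := by
  classical
  rcases s.eq_empty_or_nonempty with rfl | hs0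
  · refine ⟨fun _ => 0, fun k => ?_, by simp⟩
    filter_upwards [eventually_ge_atTop k] with n hn
    omega
  obtain ⟨f, hf⟩ := hs.exists_eq_range hs0
  have hfk : ∀ i k, ∀ᶠ n in atTop, f i n + k ≤ n := fun i k =>
    h _ (by rw [hf]; exact mem_range_self i) k
  -- `m n` is the largest `m ≤ n` with `f i n' + 2 m + 1 ≤ n'` for all `i < m` (and `n' = n`)
  let Q : ℕ → ℕ → Prop := fun n m => ∀ i < m, f i n + (2 * m + 1) ≤ n
  let m : ℕ → ℕ := fun n => Nat.findGreatest (Q n) (n / 4)
  have hQ0 : ∀ n, Q n 0 := fun n i hi => absurd hi (Nat.not_lt_zero _)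
  have hm : ∀ n, Q n (m n) := fun n => Nat.findGreatest_spec (P := Q n) (Nat.zero_le _) (hQ0 n)
  have hmt : ∀ k, ∀ᶠ n in atTop, k ≤ m n := by
    intro k
    have h1 : ∀ᶠ n in atTop, ∀ i ∈ Finset.range k, f i n + (2 * k + 1) ≤ n := by
      rw [eventually_all_finset]
      intro i _
      exact hfk i _
    filter_upwards [h1, eventually_ge_atTop (4 * k)] with n hn1 hn2
    refine Nat.le_findGreatest (by omega) fun i hi => hn1 i (Finset.mem_range.2 hi)
  refine ⟨fun n => (Finset.range (m n)).sup (fun i => f i n + 1), ?_, ?_⟩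
  · intro k
    filter_upwards [hmt k, eventually_ge_atTop k] with n hn hnk
    rcases Nat.eq_zero_or_pos (m n) with h0 | h0
    · simp only [h0, Finset.range_zero, Finset.sup_empty]
      simpa using hnk
    · have h2 : (Finset.range (m n)).sup (fun i => f i n + 1) ≤ n - 2 * m n := by
        refine Finset.sup_le fun i hi => ?_
        have := hm n i (Finset.mem_range.1 hi)
        omega
      have h3 : 2 * m n ≤ n := by
        have := hm n 0 h0
        omega
      omega
  · intro g hg
    rw [hf] at hg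
    obtain ⟨i, rfl⟩ := hg
    filter_upwards [hmt (i + 1)] with n hn
    exact Nat.lt_of_succ_le
      (Finset.le_sup (f := fun i => f i n + 1) (Finset.mem_range.2 (by omega : i < m n)))

/-- A tower of functions below the identity. -/
theorem exists_tower {I : Type u} [LinearOrder I] [WellFoundedLT I]
    (hI : ∀ i : I, (Iio i).Countable) :
    ∃ f : I → ℕ → ℕ, (∀ i, ∀ᶠ n in atTop, f i n ≤ n) ∧
      ∀ i j, i < j → ∀ᶠ n in atTop, f i n < f j n := by
  obtain ⟨f, hf⟩ := exists_rec (I := I) (β := ℕ → ℕ)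
    (fun i f => (∀ k : ℕ, ∀ᶠ n in atTop, f i n + k ≤ n) ∧ ∀ j < i, ∀ᶠ n in atTop, f j n < f i n)
    (by
      intro i b b' hbb h
      refine ⟨?_, fun j hj => ?_⟩
      · rw [← hbb i le_rfl]
        exact h.1
      · rw [← hbb i le_rfl, ← hbb j hj.le]
        exact h.2 j hj)
    (by
      intro i b hb
      obtain ⟨g, hg1, hg2⟩ := exists_dom (b '' Iio i) ((hI i).image b) (by
        rintro _ ⟨j, hj, rfl⟩
        exact (hb j hj).1)
      refine ⟨g, ?_, fun j hj => ?_⟩
      · rw [Function.update_self]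
        exact hg1
      · rw [Function.update_self, Function.update_of_ne hj.ne]
        exact hg2 _ ⟨j, hj, rfl⟩)
  exact ⟨f, fun i => by simpa using (hf i).1 0, fun i j hij => (hf j).2 i hij⟩

end Pool.Agent.R634.CH
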